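import Mathlib
import Pool.Agent.H15.Lin1

namespace Pool.Agent.Results.MP_7f09f8_gt.LinearEmbedding
open Pool.Agent.H15.TEmb

universe u v

/-- `C_p(Y)` linearly embeds in `C_p(X)`. -/
def LinEmb (Y : Type v) (X : Type u) [TopologicalSpace Y] [TopologicalSpace X] : Prop :=
  ∃ T : C(Y, ℝ) →ₗ[ℝ] C(X, ℝ), @Topology.IsEmbedding _ _ (cp Y) (cp X) T

/-- If `X` is Lindelöf and `C_p(Y)` linearly embeds in `C_p(X)`, then `Y` is Lindelöf. -/
theorem result : ∀ (X : Type u) (Y : Type v) [TopologicalSpace X] [TopologicalSpace Y]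
    [T35Space X] [T35Space Y], LindelofSpace X → LinEmb Y X → LindelofSpace Y := by
  rintro X Y _ _ _ _ hX ⟨T, hT⟩
  exact lindelof_of_lin T (@Topology.IsEmbedding.isInducing _ _ _ (cp Y) (cp X) hT)

end Pool.Agent.Results.MP_7f09f8_gt.LinearEmbedding
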